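import Pool.Agent.K1H86.TH.Stm

/-! The elements `X D k s` commute and are distinct (project TH, pieces COM and INJ; helper68). -/

set_option autoImplicit false

namespace Pool.Agent.K1H86.TH

theorem X_mem {G : Type} [Group G] (D : Sys G) : ∀ (k : ℕ) (s : T k), X D k s ∈ D.S
  | 0, _ => D.S.zpow_mem D.hf _
  | k + 1, p => D.S.mul_mem (D.hc false _ (X_mem D k p.1)) (D.hc true _ (X_mem D k p.2))

theorem com : S_COM := by
  intro G _ D k
  induction k with
  | zero =>
    intro s t
    exact (Commute.refl D.f).zpow_zpow _ _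
  | succ k ih =>
    intro s t
    have h1 : ∀ (b : Bool) (x y : T k),
        Commute (D.c b * X D k x * (D.c b)⁻¹) (D.c b * X D k y * (D.c b)⁻¹) :=
      fun b x y => (Commute.conj_iff (D.c b)).2 (ih x y)
    have h2 : ∀ x y : T k,
        Commute (D.c false * X D k x * (D.c false)⁻¹) (D.c true * X D k y * (D.c true)⁻¹) :=
      fun x y => D.comm _ (X_mem D k x) _ (X_mem D k y)
    change Commute ((D.c false * X D k s.1 * (D.c false)⁻¹) * (D.c true * X D k s.2 * (D.c true)⁻¹))
      ((D.c false * X D k t.1 * (D.c false)⁻¹) * (D.c true * X D k t.2 * (D.c true)⁻¹))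
    exact Commute.mul_left (Commute.mul_right (h1 false s.1 t.1) (h2 s.1 t.2))
      (Commute.mul_right (h2 t.1 s.2).symm (h1 true s.2 t.2))

theorem inj : S_INJ := by
  intro G _ D k
  induction k with
  | zero =>
    intro s t h
    change D.f ^ ex s = D.f ^ ex t at h
    have h0 : D.f ^ (ex s - ex t) = 1 := by
      rw [zpow_sub, h, mul_inv_cancel]
    have h2 : ∀ m : ℤ, (ex s - ex t) * m = 2 → False := by
      intro m hm
      apply D.f2
      have h3 : D.f ^ (2 : ℤ) = 1 := by
        rw [← hm, zpow_mul, h0, one_zpow]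
      rw [← h3]
      exact (zpow_two D.f).symm
    change Fin 3 at s
    change Fin 3 at t
    have h4 : ∀ s t : Fin 3, s = t ∨ ∃ m : ℤ, (ex s - ex t) * m = 2 := by
      intro s t
      fin_cases s <;> fin_cases t
      · exact Or.inl rfl
      · exact Or.inr ⟨-2, by simp [ex]⟩
      · exact Or.inr ⟨-1, by simp [ex]⟩
      · exact Or.inr ⟨2, by simp [ex]⟩
      · exact Or.inl rfl
      · exact Or.inr ⟨-2, by simp [ex]⟩
      · exact Or.inr ⟨1, by simp [ex]⟩
      · exact Or.inr ⟨2, by simp [ex]⟩
      · exact Or.inl rfl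
    rcases h4 s t with h5 | ⟨m, hm⟩
    · exact h5
    · exact absurd hm fun h => h2 m h
  | succ k ih =>
    intro s t h
    change (D.c false * X D k s.1 * (D.c false)⁻¹) * (D.c true * X D k s.2 * (D.c true)⁻¹) =
      (D.c false * X D k t.1 * (D.c false)⁻¹) * (D.c true * X D k t.2 * (D.c true)⁻¹) at h
    have h1 : D.c false * ((X D k t.1)⁻¹ * X D k s.1) * (D.c false)⁻¹ =
        D.c true * (X D k t.2 * (X D k s.2)⁻¹) * (D.c true)⁻¹ := by
      have e1 : D.c false * ((X D k t.1)⁻¹ * X D k s.1) * (D.c false)⁻¹ =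
          (D.c false * X D k t.1 * (D.c false)⁻¹)⁻¹ *
            (((D.c false * X D k s.1 * (D.c false)⁻¹) * (D.c true * X D k s.2 * (D.c true)⁻¹)) *
              (D.c true * X D k s.2 * (D.c true)⁻¹)⁻¹) := by
        group
      rw [e1, h]
      group
    have h2 := D.indep _ (D.S.mul_mem (D.S.inv_mem (X_mem D k t.1)) (X_mem D k s.1)) _
      (D.S.mul_mem (X_mem D k t.2) (D.S.inv_mem (X_mem D k s.2))) h1
    have h3 : X D k s.1 = X D k t.1 := by
      rw [← mul_one (X D k t.1), ← h2, mul_inv_cancel_left]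
    have h4 : X D k s.2 = X D k t.2 := by
      rw [h3] at h
      have h5 := mul_left_cancel h
      exact mul_left_cancel (mul_right_cancel h5)
    exact Prod.ext (ih h3) (ih h4)

end Pool.Agent.K1H86.TH

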