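import Pool.Agent.K1H86.TH.Stm

set_option autoImplicit false

/-! Project TH, piece ELT (helper85) -/

namespace Pool.Agent.K1H86.TH

namespace ELT

/-- `0x ↦ 00x, 10x ↦ 01x, 11x ↦ 1x` -/
def hf (x : C) : C :=
  if x 0 = false then cons false x
  else if x 1 = false then cons false (cons true (fun n => x (n + 2)))
  else fun n => x (n + 1)

/-- the inverse -/
def hg (y : C) : C :=
  if y 0 = true then cons true y
  else if y 1 = false then fun n => y (n + 1)
  else cons true (cons false (fun n => y (n + 2)))

theorem hf0 {x : C} (h : x 0 = false) : hf x = cons false x := if_pos h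

theorem hf10 {x : C} (h : x 0 = true) (h1 : x 1 = false) :
    hf x = cons false (cons true (fun n => x (n + 2))) := by
  unfold hf
  rw [if_neg (by rw [h]; exact Bool.true_eq_false_eq_False), if_pos h1]

theorem hf11 {x : C} (h : x 0 = true) (h1 : x 1 = true) : hf x = fun n => x (n + 1) := by
  unfold hf
  rw [if_neg (by rw [h]; exact Bool.true_eq_false_eq_False),
    if_neg (by rw [h1]; exact Bool.true_eq_false_eq_False)]

theorem eta (x : C) : cons (x 0) (fun n => x (n + 1)) = x := by
  funext n
  cases n <;> rfl

theorem eta2 (x : C) : cons (x 0) (cons (x 1) (fun n => x (n + 2))) = x := by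
  funext n
  rcases n with _ | _ | n <;> rfl

theorem gf (x : C) : hg (hf x) = x := by
  cases h0 : x 0
  · rw [hf0 h0]
    unfold hg
    rw [if_neg (by simp [cons]), if_pos (show cons false x 1 = false from h0)]
    rfl
  · cases h1 : x 1
    · rw [hf10 h0 h1]
      unfold hg
      rw [if_neg (by simp [cons]), if_neg (by simp [cons])]
      have h2 := eta2 x
      rw [h0, h1] at h2
      exact h2
    · rw [hf11 h0 h1]
      unfold hg
      rw [if_pos (show (fun n => x (n + 1)) 0 = true from h1)]
      have h2 := eta x
      rw [h0] at h2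
      exact h2

theorem fg (y : C) : hf (hg y) = y := by
  cases h0 : y 0
  · cases h1 : y 1
    · have e : hg y = fun n => y (n + 1) := by
        unfold hg
        rw [if_neg (by simp [h0]), if_pos h1]
      rw [e, hf0 (show (fun n => y (n + 1)) 0 = false from h1)]
      have h2 := eta y
      rw [h0] at h2
      exact h2
    · have e : hg y = cons true (cons false (fun n => y (n + 2))) := by
        unfold hg
        rw [if_neg (by simp [h0]), if_neg (by simp [h1])]
      rw [e, hf10 rfl rfl]
      have h2 := eta2 y
      rw [h0, h1] at h2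
      exact h2
  · have e : hg y = cons true y := by
      unfold hg
      rw [if_pos h0]
    rw [e, hf11 rfl (show cons true y 1 = true from h0)]
    rfl

/-- the permutation -/
def h : Equiv.Perm C := ⟨hf, hg, gf, fg⟩

theorem mono {x y : C} (hxy : Lx x y) : Lx (hf x) (hf y) := by
  obtain ⟨n, hn, hx, hy⟩ := hxy
  cases hx0 : x 0
  · rw [hf0 hx0]
    cases hy0 : y 0
    · rw [hf0 hy0]
      refine ⟨n + 1, fun m hm => ?_, hx, hy⟩
      rcases m with _ | m
      · rfl
      · exact hn m (by omega)
    · cases hy1 : y 1
      · rw [hf10 hy0 hy1]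
        refine ⟨1, fun m hm => ?_, hx0, rfl⟩
        have : m = 0 := by omega
        subst this
        rfl
      · rw [hf11 hy0 hy1]
        exact ⟨0, fun m hm => absurd hm (Nat.not_lt_zero m), rfl, hy1⟩
  · have hn0 : n ≠ 0 := by
      rintro rfl
      rw [hx0] at hx
      cases hx
    have hy0 : y 0 = true := by rw [← hn 0 (by omega), hx0]
    cases hx1 : x 1
    · rw [hf10 hx0 hx1]
      cases hy1 : y 1
      · rw [hf10 hy0 hy1]
        have hn1 : n ≠ 1 := by
          rintro rfl
          rw [hy1] at hy
          cases hy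
        obtain ⟨k, rfl⟩ : ∃ k, n = k + 2 := ⟨n - 2, by omega⟩
        refine ⟨k + 2, fun m hm => ?_, hx, hy⟩
        rcases m with _ | _ | m
        · rfl
        · rfl
        · exact hn (m + 2) hm
      · rw [hf11 hy0 hy1]
        exact ⟨0, fun m hm => absurd hm (Nat.not_lt_zero m), rfl, hy1⟩
    · have hn1 : n ≠ 1 := by
        rintro rfl
        rw [hx1] at hx
        cases hx
      have hy1 : y 1 = true := by rw [← hn 1 (by omega), hx1]
      rw [hf11 hx0 hx1, hf11 hy0 hy1]
      obtain ⟨k, rfl⟩ : ∃ k, n = k + 1 := ⟨n - 1, by omega⟩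
      exact ⟨k, fun m hm => hn (m + 1) (by omega), hx, hy⟩

theorem asymm {x y : C} (h1 : Lx x y) (h2 : Lx y x) : False := by
  obtain ⟨n, hn, hx, hy⟩ := h1
  obtain ⟨m, hm, hx', hy'⟩ := h2
  rcases lt_trichotomy n m with h | h | h
  · have := hm n h
    rw [hx, hy] at this
    cases this
  · subst h
    rw [hx] at hy'
    cases hy'
  · have := hn m h
    rw [hx', hy'] at this
    cases this

theorem total {x y : C} (hne : x ≠ y) : Lx x y ∨ Lx y x := by
  classical
  have hex : ∃ n, x n ≠ y n := by
    by_contra hcon
    push Not at hcon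
    exact hne (funext hcon)
  have h1 := Nat.find_spec hex
  have h2 : ∀ m < Nat.find hex, x m = y m := fun m hm => not_not.mp (Nat.find_min hex hm)
  cases hx : x (Nat.find hex)
  · cases hy : y (Nat.find hex)
    · rw [hx, hy] at h1
      exact absurd rfl h1
    · exact Or.inl ⟨_, h2, hx, hy⟩
  · cases hy : y (Nat.find hex)
    · exact Or.inr ⟨_, fun m hm => (h2 m hm).symm, hy, hx⟩
    · rw [hx, hy] at h1
      exact absurd rfl h1

end ELT

theorem elt : S_H := by
  refine ⟨ELT.h, ?_, ?_, ?_, ?_, ?_⟩
  · intro x
    cases h0 : x 0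
    · refine ⟨1, 2, fun y hy => ?_⟩
      have hy0 : y 0 = false := by rw [hy 0 (by omega), h0]
      change (∀ j < 2, ELT.hf y j = ELT.hf x j) ∧ ∀ j, ELT.hf y (2 + j) = y (1 + j)
      rw [ELT.hf0 h0, ELT.hf0 hy0]
      constructor
      · intro j hj
        rcases j with _ | _ | j
        · rfl
        · show y 0 = x 0
          rw [hy0, h0]
        · omega
      · intro j
        rw [show 2 + j = (1 + j) + 1 by omega]
        rfl
    · cases h1 : x 1
      · refine ⟨2, 2, fun y hy => ?_⟩
        have hy0 : y 0 = true := by rw [hy 0 (by omega), h0]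
        have hy1 : y 1 = false := by rw [hy 1 (by omega), h1]
        change (∀ j < 2, ELT.hf y j = ELT.hf x j) ∧ ∀ j, ELT.hf y (2 + j) = y (2 + j)
        rw [ELT.hf10 h0 h1, ELT.hf10 hy0 hy1]
        constructor
        · intro j hj
          rcases j with _ | _ | j
          · rfl
          · rfl
          · omega
        · intro j
          rw [show 2 + j = j + 2 by omega]
          rfl
      · refine ⟨2, 1, fun y hy => ?_⟩
        have hy0 : y 0 = true := by rw [hy 0 (by omega), h0]
        have hy1 : y 1 = true := by rw [hy 1 (by omega), h1]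
        change (∀ j < 1, ELT.hf y j = ELT.hf x j) ∧ ∀ j, ELT.hf y (1 + j) = y (2 + j)
        rw [ELT.hf11 h0 h1, ELT.hf11 hy0 hy1]
        constructor
        · intro j hj
          have : j = 0 := by omega
          subst this
          show y 1 = x 1
          rw [hy1, h1]
        · intro j
          show y (1 + j + 1) = y (2 + j)
          rw [show 1 + j + 1 = 2 + j by omega]
  · intro x y
    refine ⟨fun h1 => ?_, ELT.mono⟩
    by_contra hcon
    have h2 : x ≠ y := by
      rintro rfl
      exact ELT.asymm h1 h1
    rcases ELT.total h2 with h3 | h3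
    · exact hcon h3
    · exact ELT.asymm h1 (ELT.mono h3)
  · intro x
    exact ELT.hf0 (x := cons false x) rfl
  · intro x
    exact ELT.hf10 (x := cons true (cons false x)) rfl rfl
  · intro x
    exact ELT.hf11 (x := cons true (cons true x)) rfl rfl

end Pool.Agent.K1H86.TH
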