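import Pool.Agent.K1H86.TH.Stm

set_option autoImplicit false

namespace Pool.Agent.K1H86.TH

open Pool.Agent.R499.HT

lemma card_T : ∀ k : ℕ, Fintype.card (T k) = 3 ^ (2 ^ k)
  | 0 => by
    show Fintype.card (Fin 3) = _
    simp
  | k + 1 => by
    have h := card_T k
    have h2 : Fintype.card (T (k + 1)) = Fintype.card (T k) * Fintype.card (T k) :=
      Fintype.card_prod (T k) (T k)
    rw [h2, h, ← pow_add]
    congr 1
    ring

lemma ph_cases : ∀ (k : ℕ) (s : T k), ph k s = 1 ∨ ph k s = Complex.I ∨ ph k s = -1 ∨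
    ph k s = -Complex.I
  | 0, j => by
    show (if ex j = 0 then Complex.I else 1) = 1 ∨ _
    by_cases h : ex j = 0
    · right; left
      show (if ex j = 0 then Complex.I else 1) = Complex.I
      rw [if_pos h]
    · left
      rw [if_neg h]
  | k + 1, p => by
    have h1 := ph_cases k p.1
    have h2 := ph_cases k p.2
    have e : ph (k + 1) p = ph k p.1 * ph k p.2 := rfl
    rw [e]
    rcases h1 with h1 | h1 | h1 | h1 <;> rcases h2 with h2 | h2 | h2 | h2 <;> rw [h1, h2] <;>
      simp

theorem gen (hBS : S_BS) (hU : S_UPPER) (hN : S_NUP) (hC : S_COM) (hI : S_INJ) (hL : S_NLO) :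
    S_GEN := by
  classical
  intro G _ D hheat
  obtain ⟨d, hd, hh⟩ := hheat
  obtain ⟨B, hB, hup⟩ := hU G D d hd
  set t : ℝ := Real.log (5 / 4) / B with ht
  have hlog : 0 < Real.log (5 / 4) := Real.log_pos (by norm_num)
  have htpos : 0 < t := div_pos hlog hB
  obtain ⟨M, hM, hMx⟩ := hh t htpos
  obtain ⟨C, hC0, hCb⟩ := hBS G d t M hM hMx
  have key : ∀ k : ℕ, ∑ s : T k, Real.exp (-(t * d (X D k s))) ≤
      4 * (C * Real.sqrt 5 ^ (2 ^ k)) := by
    intro k
    have hinj := hI G D k
    set e : T k ↪ G := ⟨X D k, hinj⟩ with he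
    set c : G → ℂ := Function.extend (X D k) (ph k) 0 with hc
    have hcX : ∀ s, c (X D k s) = ph k s := fun s => hinj.extend_apply _ _ _
    set TT : Finset G := Finset.univ.map e with hTT
    have hnorm : ‖∑ g ∈ TT, c g • (lam g : L2 G →L[ℂ] L2 G)‖ ≤ Real.sqrt 5 ^ (2 ^ k) := by
      rw [hTT, Finset.sum_map]
      have : ∀ s : T k, c (e s) = ph k s := hcX
      simp only [this]
      exact hN G D k
    have hz : ∀ z : ℂ, ‖z‖ = 1 →
        ∑ s : T k, (if ph k s = z then Real.exp (-(t * d (X D k s))) else 0) ≤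
          C * Real.sqrt 5 ^ (2 ^ k) := by
      intro z hz
      set K : Finset G := TT.filter fun g => c g = z with hK
      have h1 := hL G K (by
        intro a ha b hb
        rw [hK, Finset.mem_filter, hTT, Finset.mem_map] at ha hb
        obtain ⟨⟨s, -, rfl⟩, -⟩ := ha
        obtain ⟨⟨s', -, rfl⟩, -⟩ := hb
        exact hC G D k s s') (fun g => Real.exp (-(t * d g))) (fun g => (Real.exp_pos _).le)
      have h2 := hCb TT K c (Finset.filter_subset _ _)
      have h3 : ∑ g ∈ K, (((Real.exp (-(t * d g)) : ℝ) : ℂ) * c g) •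
            (lam g : L2 G →L[ℂ] L2 G) =
          z • ∑ g ∈ K, ((Real.exp (-(t * d g)) : ℝ) : ℂ) • (lam g : L2 G →L[ℂ] L2 G) := by
        rw [Finset.smul_sum]
        refine Finset.sum_congr rfl fun g hg => ?_
        rw [hK, Finset.mem_filter] at hg
        rw [hg.2, smul_smul, mul_comm]
      rw [h3, norm_smul, hz, one_mul] at h2
      have h4 : ∑ g ∈ K, Real.exp (-(t * d g)) =
          ∑ s : T k, (if ph k s = z then Real.exp (-(t * d (X D k s))) else 0) := by
        rw [hK, Finset.sum_filter, hTT, Finset.sum_map]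
        refine Finset.sum_congr rfl fun s _ => ?_
        have : c (e s) = ph k s := hcX s
        rw [this]
        rfl
      rw [← h4]
      exact h1.trans (h2.trans (mul_le_mul_of_nonneg_left hnorm hC0.le))
    have hsplit : ∀ s : T k, Real.exp (-(t * d (X D k s))) ≤
        (if ph k s = 1 then Real.exp (-(t * d (X D k s))) else 0) +
        (if ph k s = Complex.I then Real.exp (-(t * d (X D k s))) else 0) +
        (if ph k s = -1 then Real.exp (-(t * d (X D k s))) else 0) +
        (if ph k s = -Complex.I then Real.exp (-(t * d (X D k s))) else 0) := by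
      intro s
      have hp : 0 < Real.exp (-(t * d (X D k s))) := Real.exp_pos _
      have hif : ∀ z : ℂ, 0 ≤ (if ph k s = z then Real.exp (-(t * d (X D k s))) else 0) := by
        intro z
        split_ifs
        · exact hp.le
        · exact le_rfl
      have i1 := hif 1
      have i2 := hif Complex.I
      have i3 := hif (-1)
      have i4 := hif (-Complex.I)
      rcases ph_cases k s with h | h | h | h
      · have : (if ph k s = 1 then Real.exp (-(t * d (X D k s))) else 0) =
          Real.exp (-(t * d (X D k s))) := if_pos h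
        linarith
      · have : (if ph k s = Complex.I then Real.exp (-(t * d (X D k s))) else 0) =
          Real.exp (-(t * d (X D k s))) := if_pos h
        linarith
      · have : (if ph k s = -1 then Real.exp (-(t * d (X D k s))) else 0) =
          Real.exp (-(t * d (X D k s))) := if_pos h
        linarith
      · have : (if ph k s = -Complex.I then Real.exp (-(t * d (X D k s))) else 0) =
          Real.exp (-(t * d (X D k s))) := if_pos h
        linarith
    refine (Finset.sum_le_sum fun s _ => hsplit s).trans ?_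
    rw [Finset.sum_add_distrib, Finset.sum_add_distrib, Finset.sum_add_distrib]
    have j1 := hz 1 (by simp)
    have j2 := hz Complex.I (by simp)
    have j3 := hz (-1) (by simp)
    have j4 := hz (-Complex.I) (by simp)
    linarith
  have low : ∀ k : ℕ, (12 / 5 : ℝ) ^ (2 ^ k) ≤ ∑ s : T k, Real.exp (-(t * d (X D k s))) := by
    intro k
    set n := 2 ^ k with hn
    set E : ℝ := (∑ s : T k, d (X D k s)) / 3 ^ n with hE
    have h3 : (0 : ℝ) < 3 ^ n := by positivity
    have hsum : ∑ s : T k, d (X D k s) = E * 3 ^ n := by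
      rw [hE]
      field_simp
    have hEB : E ≤ B * (n : ℝ) := by
      have := hup k
      rw [hE, hn]
      push_cast
      exact this
    have h1 : ∀ s : T k, Real.exp (-(t * E)) * (1 - t * (d (X D k s) - E)) ≤
        Real.exp (-(t * d (X D k s))) := by
      intro s
      have h := Real.add_one_le_exp (-(t * (d (X D k s) - E)))
      have h2 : Real.exp (-(t * d (X D k s))) =
          Real.exp (-(t * E)) * Real.exp (-(t * (d (X D k s) - E))) := by
        rw [← Real.exp_add]
        congr 1
        ring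
      rw [h2]
      refine mul_le_mul_of_nonneg_left ?_ (Real.exp_pos _).le
      linarith
    refine le_trans ?_ (Finset.sum_le_sum fun s _ => h1 s)
    rw [← Finset.mul_sum, Finset.sum_sub_distrib, ← Finset.mul_sum, Finset.sum_sub_distrib,
      hsum]
    simp only [Finset.sum_const, Finset.card_univ, card_T, nsmul_eq_mul, mul_one]
    push_cast
    rw [← hn]
    have h5 : (3 : ℝ) ^ n - t * (E * 3 ^ n - 3 ^ n * E) = 3 ^ n := by ring
    rw [h5]
    have h6 : Real.exp (-(t * E)) ≥ (4 / 5 : ℝ) ^ n := by
      have h7 : -(t * E) ≥ (n : ℝ) * Real.log (4 / 5) := by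
        have h8 : t * E ≤ t * (B * n) := mul_le_mul_of_nonneg_left hEB htpos.le
        have h9 : t * (B * n) = Real.log (5 / 4) * n := by
          rw [ht]
          field_simp
        have h10 : Real.log (4 / 5) = - Real.log (5 / 4) := by
          rw [← Real.log_inv]
          norm_num
        rw [h10]
        linarith
      calc Real.exp (-(t * E)) ≥ Real.exp ((n : ℝ) * Real.log (4 / 5)) := Real.exp_le_exp.2 h7
        _ = (4 / 5 : ℝ) ^ n := by
          rw [Real.exp_nat_mul, Real.exp_log (by norm_num)]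
    calc (12 / 5 : ℝ) ^ n = (4 / 5 : ℝ) ^ n * 3 ^ n := by
          rw [← mul_pow]
          norm_num
      _ ≤ Real.exp (-(t * E)) * 3 ^ n := mul_le_mul_of_nonneg_right h6 h3.le
  have hs5 : Real.sqrt 5 ≤ 23 / 10 := by
    rw [Real.sqrt_le_left (by norm_num)]
    norm_num
  have fin : ∀ k : ℕ, (24 / 23 : ℝ) ^ (2 ^ k) ≤ 4 * C := by
    intro k
    have h1 := (low k).trans (key k)
    have h2 : Real.sqrt 5 ^ (2 ^ k) ≤ (23 / 10 : ℝ) ^ (2 ^ k) :=
      pow_le_pow_left₀ (Real.sqrt_nonneg _) hs5 _
    have h3 : (0 : ℝ) < (23 / 10 : ℝ) ^ (2 ^ k) := by positivity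
    have h4 : (12 / 5 : ℝ) ^ (2 ^ k) = (24 / 23 : ℝ) ^ (2 ^ k) * (23 / 10 : ℝ) ^ (2 ^ k) := by
      rw [← mul_pow]
      norm_num
    rw [h4] at h1
    have h5 : (24 / 23 : ℝ) ^ (2 ^ k) * (23 / 10 : ℝ) ^ (2 ^ k) ≤
        (4 * C) * (23 / 10 : ℝ) ^ (2 ^ k) := by
      refine h1.trans ?_
      have := mul_le_mul_of_nonneg_left h2 hC0.le
      nlinarith
    exact le_of_mul_le_mul_right h5 h3
  obtain ⟨m, hm⟩ := pow_unbounded_of_one_lt (4 * C) (by norm_num : (1 : ℝ) < 24 / 23)
  have h6 := fin m
  have h7 : (24 / 23 : ℝ) ^ m ≤ (24 / 23 : ℝ) ^ (2 ^ m) :=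
    pow_le_pow_right₀ (by norm_num) (Nat.lt_two_pow_self).le
  linarith

end Pool.Agent.K1H86.TH
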