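import Pool.Agent.K1H86.TH.Stm

/-! Project TH, pieces GRP1, GRP2 (task 86001): local prefix replacements form a group. -/

set_option autoImplicit false

namespace Pool.Agent.K1H86.TH

theorem refine_pr {σ : Equiv.Perm C} {x : C} {n m : ℕ}
    (h : ∀ y : C, (∀ i < n, y i = x i) →
      (∀ j < m, σ y j = σ x j) ∧ ∀ j, σ y (m + j) = y (n + j)) (r : ℕ) :
    ∀ y : C, (∀ i < n + r, y i = x i) →
      (∀ j < m + r, σ y j = σ x j) ∧ ∀ j, σ y (m + r + j) = y (n + r + j) := by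
  intro y hy
  obtain ⟨h1, h2⟩ := h y (fun i hi => hy i (by omega))
  obtain ⟨_, h3⟩ := h x (fun i _ => rfl)
  refine ⟨fun j hj => ?_, fun j => ?_⟩
  · by_cases hjm : j < m
    · exact h1 j hjm
    · obtain ⟨i, rfl⟩ := Nat.exists_eq_add_of_le (not_lt.mp hjm)
      rw [h2, h3]
      exact hy _ (by omega)
  · rw [add_assoc, h2, add_assoc]

theorem prmul : S_PRmul := by
  intro σ τ hσ hτ x
  obtain ⟨n, m, h1⟩ := hτ x
  obtain ⟨n', m', h2⟩ := hσ (τ x)
  refine ⟨n + n', m' + m, fun y hy => ?_⟩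
  obtain ⟨a1, a2⟩ := refine_pr h1 n' y hy
  obtain ⟨b1, b2⟩ := refine_pr h2 m (τ y) (fun i hi => a1 i (by omega))
  refine ⟨fun j hj => b1 j hj, fun j => ?_⟩
  have e1 := b2 j
  have e2 := a2 j
  have e3 : n' + m + j = m + n' + j := by omega
  rw [e3, e2] at e1
  exact e1

theorem prinv : S_PRinv := by
  intro σ hσ x'
  obtain ⟨x, rfl⟩ := σ.surjective x'
  obtain ⟨n, m, h⟩ := hσ x
  refine ⟨m, n, fun y' hy' => ?_⟩
  obtain ⟨y, hydef⟩ : ∃ y : C, y = fun i => if i < n then x i else y' (m + (i - n)) := ⟨_, rfl⟩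
  have hy1 : ∀ i < n, y i = x i := by
    intro i hi
    rw [hydef]
    simp only
    rw [if_pos hi]
  have hy2 : ∀ j, y (n + j) = y' (m + j) := by
    intro j
    rw [hydef]
    simp only
    rw [if_neg (by omega), Nat.add_sub_cancel_left]
  have hy : σ y = y' := by
    obtain ⟨h1, h2⟩ := h y hy1
    funext j
    by_cases hj : j < m
    · rw [h1 j hj]; exact (hy' j hj).symm
    · obtain ⟨i, rfl⟩ := Nat.exists_eq_add_of_le (not_lt.mp hj)
      rw [h2, hy2]
  have e : σ⁻¹ y' = y := by rw [← hy]; exact Equiv.symm_apply_apply σ y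
  have e2 : σ⁻¹ (σ x) = x := Equiv.symm_apply_apply σ x
  rw [e, e2]
  exact ⟨hy1, hy2⟩

end Pool.Agent.K1H86.TH
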