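import Pool.Agent.K1H86.TH.Stm

/-!
Project TH: two inequalities for negative definite functions.
-/

set_option autoImplicit false

namespace Pool.Agent.K1H86.TH

open Pool.Agent.R499.HT

theorem nda_real {G : Type} [Group G] {d : G → ℝ} (hd : ND d) (n : ℕ) (g : Fin n → G)
    (b : Fin n → ℝ) (hb : ∑ i, b i = 0) :
    ∑ i, ∑ j, b i * b j * d ((g i)⁻¹ * g j) ≤ 0 := by
  have h := hd.neg n g (fun i => (b i : ℂ)) (by
    rw [← Complex.ofReal_sum, hb, Complex.ofReal_zero])
  have e : (∑ i, ∑ j, (starRingEnd ℂ) ((b i : ℝ) : ℂ) * (b j : ℂ) * ((d ((g i)⁻¹ * g j) : ℝ) : ℂ)) =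
      ((∑ i, ∑ j, b i * b j * d ((g i)⁻¹ * g j) : ℝ) : ℂ) := by
    push_cast
    simp only [Complex.conj_ofReal]
  rw [e, Complex.ofReal_re] at h
  exact h

theorem nda : S_NDA := by
  intro G _ d hd
  constructor
  · intro p q hpq
    have h := nda_real hd 4 ![1, p, q, p * q] ![1, -1, -1, 1] (by
      simp [Fin.sum_univ_four])
    have e0 := hd.one
    have e1 := hd.symm p
    have e2 := hd.symm q
    have e3 := hd.symm (p * q)
    have e4 := hd.symm (p⁻¹ * q)
    rw [mul_inv_rev, inv_inv] at e4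
    have e5 : q⁻¹ * (p * q) = p := by rw [hpq.eq, inv_mul_cancel_left]
    have e6 : p⁻¹ * (p * q) = q := inv_mul_cancel_left p q
    have e7 : (p * q)⁻¹ * p = q⁻¹ := by rw [mul_inv_rev, inv_mul_cancel_right]
    have e8 : (p * q)⁻¹ * q = p⁻¹ := by
      rw [← inv_inv q, ← mul_inv_rev, inv_inv, e5]
    rw [Fin.sum_univ_four, Fin.sum_univ_four, Fin.sum_univ_four, Fin.sum_univ_four,
      Fin.sum_univ_four] at h
    simp only [Matrix.cons_val_zero, Matrix.cons_val_one, Matrix.cons_val, inv_one, one_mul,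
      mul_one, inv_mul_cancel, e5, e6, e7, e8, e0, e1, e2, e3, e4] at h
    linarith
  · intro g h ε hε
    have h' := nda_real hd 3 ![1, g, g * h] ![ε, -(ε + 1), 1] (by
      simp [Fin.sum_univ_three])
    have e0 := hd.one
    have e1 := hd.symm g
    have e2 := hd.symm h
    have e3 := hd.symm (g * h)
    have e6 : g⁻¹ * (g * h) = h := inv_mul_cancel_left g h
    have e7 : (g * h)⁻¹ * g = h⁻¹ := by rw [mul_inv_rev, inv_mul_cancel_right]
    rw [Fin.sum_univ_three, Fin.sum_univ_three, Fin.sum_univ_three, Fin.sum_univ_three] at h'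
    simp only [Matrix.cons_val_zero, Matrix.cons_val_one, Matrix.cons_val, inv_one, one_mul,
      mul_one, inv_mul_cancel, e6, e7, e0, e1, e2, e3] at h'
    have h2 : ε * d (g * h) ≤ ε * ((1 + ε) * d g + (1 + 1 / ε) * d h) := by
      have h3 : ε * ((1 + ε) * d g + (1 + 1 / ε) * d h) = ε * (1 + ε) * d g + (ε + 1) * d h := by
        field_simp
      rw [h3]
      nlinarith
    exact le_of_mul_le_mul_left h2 hε

end Pool.Agent.K1H86.TH
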