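import Pool.Agent.K1H86.TH.Stm

/-!
Project TH: piece NLO, lower bound of the norm for commuting elements and nonnegative coefficients.
The vector `A ^ n δ_1` has nonnegative coordinates with sum `(∑ c) ^ n` and at most
`(n + 1) ^ |K|` nonzero coordinates.
-/

set_option autoImplicit false

namespace Pool.Agent.K1H86.TH

open Pool.Agent.R499.HT
open scoped Pointwise

section nlo

variable {G : Type} [Group G]

open Classical in
/-- the products of powers with exponents at most `n` -/
noncomputable def PS (n : ℕ) : List G → Finset G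
  | [] => {1}
  | g :: l => (Finset.range (n + 1)).image (fun j => g ^ j) * PS n l

lemma PS_card (n : ℕ) : ∀ l : List G, (PS n l).card ≤ (n + 1) ^ l.length
  | [] => by simp [PS]
  | g :: l => by
      classical
      unfold PS
      calc _ ≤ ((Finset.range (n + 1)).image (fun j => g ^ j)).card * (PS n l).card :=
            Finset.card_mul_le
        _ ≤ (n + 1) * (n + 1) ^ l.length := by
            refine Nat.mul_le_mul ?_ (PS_card n l)
            exact Finset.card_image_le.trans (by simp)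
        _ = _ := by rw [List.length_cons, pow_succ]; ring

lemma PS_mono (n : ℕ) : ∀ l : List G, PS n l ⊆ PS (n + 1) l
  | [] => by simp [PS]
  | g :: l => by
      classical
      unfold PS
      refine Finset.mul_subset_mul ?_ (PS_mono n l)
      apply Finset.image_subset_image
      intro j hj
      rw [Finset.mem_range] at hj ⊢
      omega

lemma PS_one (l : List G) : (1 : G) ∈ PS 0 l := by
  classical
  induction l with
  | nil => simp [PS]
  | cons g l ih =>
      unfold PS
      rw [Finset.mem_mul]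
      exact ⟨1, by simp, 1, ih, by simp⟩

lemma PS_mul (n : ℕ) : ∀ l : List G, (∀ a ∈ l, ∀ b ∈ l, Commute a b) → ∀ g ∈ l, ∀ x ∈ PS n l,
    g * x ∈ PS (n + 1) l
  | [] => by simp
  | h :: l => by
      classical
      intro hc g hg x hx
      unfold PS at hx ⊢
      rw [Finset.mem_mul] at hx
      obtain ⟨u, hu, v, hv, rfl⟩ := hx
      rw [Finset.mem_image] at hu
      obtain ⟨j, hj, rfl⟩ := hu
      rw [Finset.mem_range] at hj
      rw [Finset.mem_mul]
      rcases List.mem_cons.1 hg with rfl | hgl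
      · refine ⟨g ^ (j + 1), ?_, v, PS_mono n l hv, by rw [pow_succ', mul_assoc]⟩
        rw [Finset.mem_image]
        exact ⟨j + 1, Finset.mem_range.2 (by omega), rfl⟩
      · have hcom : Commute g h := hc g hg h (List.mem_cons_self)
        refine ⟨h ^ j, ?_, g * v, ?_, ?_⟩
        · rw [Finset.mem_image]
          exact ⟨j, Finset.mem_range.2 (by omega), rfl⟩
        · exact PS_mul n l (fun a ha b hb => hc a (List.mem_cons_of_mem _ ha) b (List.mem_cons_of_mem _ hb))
            g hgl v hv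
        · rw [← mul_assoc, ← mul_assoc, (hcom.pow_right j).eq]

/-- the coordinates of `A ^ n δ_1` -/
noncomputable def co (K : Finset G) (c : G → ℝ) : ℕ → G → ℝ
  | 0 => fun x => by classical exact if x = 1 then 1 else 0
  | n + 1 => fun x => ∑ g ∈ K, c g * co K c n (g⁻¹ * x)

lemma co_nonneg (K : Finset G) (c : G → ℝ) (hc : ∀ g, 0 ≤ c g) (n : ℕ) : ∀ x, 0 ≤ co K c n x := by
  induction n with
  | zero => intro x; unfold co; split_ifs <;> norm_num
  | succ n ih => intro x; unfold co; exact Finset.sum_nonneg fun g _ => mul_nonneg (hc g) (ih _)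

lemma co_out (K : Finset G) (c : G → ℝ) (hK : ∀ a ∈ K, ∀ b ∈ K, Commute a b) (n : ℕ) :
    ∀ x, x ∉ PS n K.toList → co K c n x = 0 := by
  induction n with
  | zero =>
      intro x hx
      unfold co
      rw [if_neg]
      rintro rfl
      exact hx (PS_one _)
  | succ n ih =>
      intro x hx
      unfold co
      refine Finset.sum_eq_zero fun g hg => ?_
      rw [ih _ ?_, mul_zero]
      intro h
      apply hx
      have := PS_mul n K.toList (fun a ha b hb => hK a (Finset.mem_toList.1 ha) b (Finset.mem_toList.1 hb))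
        g (Finset.mem_toList.2 hg) _ h
      rwa [mul_inv_cancel_left] at this

lemma co_sum (K : Finset G) (c : G → ℝ) (hK : ∀ a ∈ K, ∀ b ∈ K, Commute a b) (n : ℕ) :
    ∑ x ∈ PS n K.toList, co K c n x = (∑ g ∈ K, c g) ^ n := by
  classical
  induction n with
  | zero =>
      rw [pow_zero]
      unfold co
      rw [Finset.sum_eq_single (1 : G)]
      · simp
      · intro b _ hb
        rw [if_neg hb]
      · intro h
        exact absurd (PS_one _) h
  | succ n ih =>
      unfold co
      rw [Finset.sum_comm, pow_succ', Finset.sum_mul]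
      refine Finset.sum_congr rfl fun g hg => ?_
      rw [← Finset.mul_sum, ← ih]
      congr 1
      have hsub : (PS n K.toList).image (fun x => g * x) ⊆ PS (n + 1) K.toList := by
        intro y hy
        rw [Finset.mem_image] at hy
        obtain ⟨x, hx, rfl⟩ := hy
        exact PS_mul n K.toList (fun a ha b hb => hK a (Finset.mem_toList.1 ha) b (Finset.mem_toList.1 hb))
          g (Finset.mem_toList.2 hg) _ hx
      rw [← Finset.sum_subset hsub, Finset.sum_image]
      · exact Finset.sum_congr rfl fun x _ => by rw [inv_mul_cancel_left]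
      · intro a _ b _ h
        exact mul_left_cancel h
      · intro x _ hx
        apply co_out K c hK n
        intro h
        apply hx
        rw [Finset.mem_image]
        exact ⟨_, h, by rw [mul_inv_cancel_left]⟩

lemma co_eq (K : Finset G) (c : G → ℝ) (n : ℕ) (x : G) :
    (((∑ g ∈ K, (c g : ℂ) • (lam g : L2 G →L[ℂ] L2 G)) ^ n) (bas G 1)) x = (co K c n x : ℂ) := by
  classical
  induction n generalizing x with
  | zero =>
      rw [pow_zero]
      unfold co
      have h1 : bas G (1 : G) = lp.single 2 (1 : G) (1 : ℂ) := by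
        have := (bas G).repr_symm_single (1 : G)
        rw [← this]; rfl
      rw [one_apply_eq_self, h1]
      by_cases hx : x = 1
      · subst hx
        simp
      · rw [if_neg hx]
        simp [lp.single_apply, hx]
  | succ n ih =>
      rw [pow_succ', mul_apply_eq_comp]
      unfold co
      obtain ⟨v, hv⟩ : ∃ v, v = ((∑ g ∈ K, (c g : ℂ) • (lam g : L2 G →L[ℂ] L2 G)) ^ n) (bas G 1) :=
        ⟨_, rfl⟩
      rw [← hv] at ih ⊢
      have h0 : (∑ g ∈ K, (c g : ℂ) • (lam g : L2 G →L[ℂ] L2 G)) v =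
          ∑ g ∈ K, (c g : ℂ) • (lam g v) := by
        rw [sum_apply]
        rfl
      rw [h0]
      have h1 : (∑ g ∈ K, (c g : ℂ) • (lam g v) : L2 G) x =
          ∑ g ∈ K, ((c g : ℂ) • (lam g v) : L2 G) x := by
        rw [lp.coeFn_sum, Finset.sum_apply]
      rw [h1]
      push_cast
      refine Finset.sum_congr rfl fun g _ => ?_
      rw [lp.coeFn_smul, Pi.smul_apply, lam_apply, ih, smul_eq_mul]

lemma co_norm (K : Finset G) (c : G → ℝ) (hK : ∀ a ∈ K, ∀ b ∈ K, Commute a b)
    (n : ℕ) : ((∑ g ∈ K, c g) ^ n) ^ 2 ≤ ((n : ℝ) + 1) ^ K.card *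
      (‖∑ g ∈ K, (c g : ℂ) • (lam g : L2 G →L[ℂ] L2 G)‖ ^ n) ^ 2 := by
  obtain ⟨A, hA⟩ : ∃ A, A = ∑ g ∈ K, (c g : ℂ) • (lam g : L2 G →L[ℂ] L2 G) := ⟨_, rfl⟩
  have hco := co_eq K c n
  rw [← hA] at hco ⊢
  have h1 : ‖(A ^ n) (bas G 1)‖ ≤ ‖A‖ ^ n := by
    calc ‖(A ^ n) (bas G 1)‖ ≤ ‖A ^ n‖ * ‖bas G (1 : G)‖ := (A ^ n).le_opNorm _
      _ = ‖A ^ n‖ := by rw [(bas G).orthonormal.1 1, mul_one]
      _ ≤ ‖A‖ ^ n := by
          rcases Nat.eq_zero_or_pos n with h | h
          · subst h
            rw [pow_zero, pow_zero]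
            exact ContinuousLinearMap.norm_id_le
          · exact norm_pow_le' A h
  have h2 : ∑ x ∈ PS n K.toList, co K c n x ^ 2 ≤ ‖(A ^ n) (bas G 1)‖ ^ 2 := by
    have := lp.sum_rpow_le_norm_rpow (p := 2) (by norm_num) ((A ^ n) (bas G 1)) (PS n K.toList)
    simp only [ENNReal.toReal_ofNat, Real.rpow_ofNat] at this
    refine le_trans (le_of_eq ?_) this
    refine Finset.sum_congr rfl fun x _ => ?_
    rw [hco, Complex.norm_real, Real.norm_eq_abs, sq_abs]
  rw [← co_sum K c hK n]
  calc (∑ x ∈ PS n K.toList, co K c n x) ^ 2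
      ≤ (PS n K.toList).card * ∑ x ∈ PS n K.toList, co K c n x ^ 2 := sq_sum_le_card_mul_sum_sq
    _ ≤ ((n : ℝ) + 1) ^ K.card * (‖A‖ ^ n) ^ 2 := by
        have h3 : ((PS n K.toList).card : ℝ) ≤ ((n : ℝ) + 1) ^ K.card := by
          have := PS_card n K.toList
          rw [Finset.length_toList] at this
          exact_mod_cast this
        have h4 : ∑ x ∈ PS n K.toList, co K c n x ^ 2 ≤ (‖A‖ ^ n) ^ 2 :=
          h2.trans (pow_le_pow_left₀ (norm_nonneg _) h1 2)
        exact mul_le_mul h3 h4 (Finset.sum_nonneg fun _ _ => sq_nonneg _) (by positivity)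

/-- **Piece NLO.** -/
theorem nlo : S_NLO := by
  intro G _ K hK c hc
  obtain ⟨r, hr⟩ : ∃ r, r = ‖∑ g ∈ K, (c g : ℂ) • (lam g : L2 G →L[ℂ] L2 G)‖ := ⟨_, rfl⟩
  obtain ⟨s, hs⟩ : ∃ s, s = ∑ g ∈ K, c g := ⟨_, rfl⟩
  have hmain : ∀ n : ℕ, (s ^ n) ^ 2 ≤ ((n : ℝ) + 1) ^ K.card * (r ^ n) ^ 2 := by
    intro n
    have := co_norm K c hK n
    rwa [← hr, ← hs] at this
  rw [← hr, ← hs]
  have hr0 : 0 ≤ r := by rw [hr]; exact norm_nonneg _
  by_contra hlt
  rw [not_le] at hlt
  have hs0 : 0 < s := by linarith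
  have hq1 : |(r / s) ^ 2| < 1 := by
    rw [abs_of_nonneg (by positivity)]
    have h1 : r / s < 1 := (div_lt_one hs0).2 hlt
    have h2 : 0 ≤ r / s := by positivity
    nlinarith
  have hlim := tendsto_pow_const_mul_const_pow_of_abs_lt_one K.card hq1
  have hlim2 := hlim.const_mul ((2 : ℝ) ^ K.card)
  rw [mul_zero] at hlim2
  have hev := (hlim2.eventually (gt_mem_nhds (zero_lt_one (α := ℝ)))).and (Filter.eventually_ge_atTop 1)
  obtain ⟨n, h1, h2⟩ := hev.exists
  have h3 : (1 : ℝ) ≤ n := by exact_mod_cast h2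
  have h4 := hmain n
  have h5 : ((n : ℝ) + 1) ^ K.card ≤ 2 ^ K.card * (n : ℝ) ^ K.card := by
    rw [← mul_pow]
    exact pow_le_pow_left₀ (by positivity) (by linarith) _
  have h6 : (s ^ n) ^ 2 ≤ (2 ^ K.card * (n : ℝ) ^ K.card) * (r ^ n) ^ 2 :=
    h4.trans (mul_le_mul_of_nonneg_right h5 (by positivity))
  have h7 : (2 ^ K.card * ((n : ℝ) ^ K.card * ((r / s) ^ 2) ^ n)) * (s ^ n) ^ 2 =
      (2 ^ K.card * (n : ℝ) ^ K.card) * (r ^ n) ^ 2 := by
    have : ((r / s) ^ 2) ^ n = (r ^ n) ^ 2 / (s ^ n) ^ 2 := by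
      rw [div_pow, div_pow]
      rw [← pow_mul, ← pow_mul, ← pow_mul, ← pow_mul, mul_comm 2 n]
    rw [this]
    field_simp
  have h8 : 0 < (s ^ n) ^ 2 := by positivity
  have h9 := mul_lt_mul_of_pos_right h1 h8
  rw [h7, one_mul] at h9
  linarith

end nlo

end Pool.Agent.K1H86.TH
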