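import Pool.Agent.K1H86.TH.Stm

set_option autoImplicit false

/-! Project TH (helper86), piece NUP (helper75): the upper bound of the operator norm. -/

namespace Pool.Agent.K1H86.TH

open Pool.Agent.R499.HT

namespace NUP

variable {G : Type} [Group G]

theorem lam_mul (g h : G) : (lam (g * h) : L2 G →L[ℂ] L2 G) = lam g * lam h := by
  ext x y
  rw [mul_apply_eq_comp, lam_apply, lam_apply, lam_apply, mul_inv_rev, mul_assoc]

theorem lam_one : (lam (1 : G) : L2 G →L[ℂ] L2 G) = 1 := by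
  ext x y
  rw [lam_apply, inv_one, one_mul]
  rfl

theorem norm_lam_apply (g : G) (x : L2 G) : ‖lam g x‖ = ‖x‖ := (lt g).norm_map x

theorem norm_lam (g : G) : ‖(lam g : L2 G →L[ℂ] L2 G)‖ ≤ 1 :=
  ContinuousLinearMap.opNorm_le_bound _ zero_le_one fun x => by rw [norm_lam_apply, one_mul]

theorem inner_lam (g : G) (x y : L2 G) : inner ℂ (lam g x) (lam g y) = inner ℂ x y :=
  (lt g).inner_map_map x y

theorem lam_lam_inv (g : G) (x : L2 G) : lam g (lam g⁻¹ x) = x := by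
  rw [← mul_apply_eq_comp, ← lam_mul, mul_inv_cancel, lam_one]
  rfl

theorem base (f : G) (x : L2 G) :
    ‖lam f⁻¹ x + Complex.I • x + lam f x‖ ^ 2 ≤ 5 * ‖x‖ ^ 2 := by
  have h1 : lam f⁻¹ x + Complex.I • x + lam f x = (lam f⁻¹ x + lam f x) + Complex.I • x := by
    abel
  rw [h1, @norm_add_sq ℂ]
  have h2 : RCLike.re (inner ℂ (lam f⁻¹ x + lam f x) (Complex.I • x)) = 0 := by
    rw [inner_smul_right, inner_add_left]
    have h3 : inner ℂ (lam f⁻¹ x) x = (starRingEnd ℂ) (inner ℂ (lam f x) x) := by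
      rw [← inner_lam f (lam f⁻¹ x) x, lam_lam_inv, inner_conj_symm]
    rw [h3]
    generalize (inner ℂ (lam f x) x : ℂ) = z
    simp
  rw [h2]
  have h4 : ‖lam f⁻¹ x + lam f x‖ ≤ 2 * ‖x‖ := by
    refine (norm_add_le _ _).trans ?_
    rw [norm_lam_apply, norm_lam_apply]
    linarith
  have h5 : ‖Complex.I • x‖ = ‖x‖ := by rw [norm_smul, Complex.norm_I, one_mul]
  rw [h5]
  have h6 : ‖lam f⁻¹ x + lam f x‖ ^ 2 ≤ (2 * ‖x‖) ^ 2 := by gcongr
  nlinarith

theorem zero (D : Sys G) :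
    ‖∑ s : T 0, ph 0 s • (lam (X D 0 s) : L2 G →L[ℂ] L2 G)‖ ≤ Real.sqrt 5 := by
  have h1 : ∑ s : T 0, ph 0 s • (lam (X D 0 s) : L2 G →L[ℂ] L2 G) =
      lam D.f⁻¹ + Complex.I • (1 : L2 G →L[ℂ] L2 G) + lam D.f := by
    have h2 : ∑ s : T 0, ph 0 s • (lam (X D 0 s) : L2 G →L[ℂ] L2 G) =
        ∑ j : Fin 3, (if ex j = 0 then Complex.I else 1) •
          (lam (D.f ^ ex j) : L2 G →L[ℂ] L2 G) := rfl
    have e0 : ex 0 = -1 := by decide
    have e1 : ex 1 = 0 := by decide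
    have e2 : ex 2 = 1 := by decide
    rw [h2, Fin.sum_univ_three, e0, e1, e2, if_neg (by norm_num), if_pos rfl,
      if_neg (by norm_num), one_smul, one_smul, zpow_neg_one, zpow_zero, zpow_one, lam_one]
  rw [h1]
  refine ContinuousLinearMap.opNorm_le_bound _ (Real.sqrt_nonneg 5) fun x => ?_
  have h3 := base D.f x
  have h4 : (lam D.f⁻¹ + Complex.I • (1 : L2 G →L[ℂ] L2 G) + lam D.f) x =
      lam D.f⁻¹ x + Complex.I • x + lam D.f x := rfl
  rw [h4]
  refine abs_le_of_sq_le_sq' ?_ (by positivity) |>.2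
  rw [mul_pow, Real.sq_sqrt (by norm_num)]
  exact h3

theorem conj (D : Sys G) (k : ℕ) (c : G) :
    ∑ s : T k, ph k s • (lam (c * X D k s * c⁻¹) : L2 G →L[ℂ] L2 G) =
      lam c * (∑ s : T k, ph k s • (lam (X D k s) : L2 G →L[ℂ] L2 G)) * lam c⁻¹ := by
  rw [Finset.mul_sum, Finset.sum_mul]
  refine Finset.sum_congr rfl fun s _ => ?_
  rw [lam_mul, lam_mul, mul_smul_comm, smul_mul_assoc]

theorem norm_conj (D : Sys G) (k : ℕ) (c : G) :
    ‖∑ s : T k, ph k s • (lam (c * X D k s * c⁻¹) : L2 G →L[ℂ] L2 G)‖ ≤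
      ‖∑ s : T k, ph k s • (lam (X D k s) : L2 G →L[ℂ] L2 G)‖ := by
  rw [conj]
  refine (norm_mul_le _ _).trans ?_
  have h1 := norm_mul_le (lam c : L2 G →L[ℂ] L2 G)
    (∑ s : T k, ph k s • (lam (X D k s) : L2 G →L[ℂ] L2 G))
  have h2 := norm_lam c
  have h3 := norm_lam c⁻¹
  have h4 := norm_nonneg (∑ s : T k, ph k s • (lam (X D k s) : L2 G →L[ℂ] L2 G))
  calc _ ≤ (‖(lam c : L2 G →L[ℂ] L2 G)‖ *
        ‖∑ s : T k, ph k s • (lam (X D k s) : L2 G →L[ℂ] L2 G)‖) * 1 := by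
        gcongr
    _ ≤ (1 * ‖∑ s : T k, ph k s • (lam (X D k s) : L2 G →L[ℂ] L2 G)‖) * 1 := by gcongr
    _ = _ := by ring

theorem split (D : Sys G) (k : ℕ) :
    ∑ s : T (k + 1), ph (k + 1) s • (lam (X D (k + 1) s) : L2 G →L[ℂ] L2 G) =
      (∑ s : T k, ph k s •
        (lam (D.c false * X D k s * (D.c false)⁻¹) : L2 G →L[ℂ] L2 G)) *
      ∑ s : T k, ph k s • (lam (D.c true * X D k s * (D.c true)⁻¹) : L2 G →L[ℂ] L2 G) := by
  have h1 : ∑ s : T (k + 1), ph (k + 1) s • (lam (X D (k + 1) s) : L2 G →L[ℂ] L2 G) =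
      ∑ p : T k × T k, (ph k p.1 * ph k p.2) •
        (lam ((D.c false * X D k p.1 * (D.c false)⁻¹) *
          (D.c true * X D k p.2 * (D.c true)⁻¹)) : L2 G →L[ℂ] L2 G) := rfl
  rw [h1, Fintype.sum_prod_type, Finset.sum_mul_sum]
  refine Finset.sum_congr rfl fun s _ => Finset.sum_congr rfl fun t _ => ?_
  rw [lam_mul, smul_mul_smul_comm]

end NUP

/-- piece NUP -/
theorem nup : S_NUP := by
  intro G _ D k
  induction k with
  | zero =>
    refine (NUP.zero D).trans ?_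
    rw [pow_zero, pow_one]
  | succ k ih =>
    rw [NUP.split]
    refine (norm_mul_le _ _).trans ?_
    have h1 := (NUP.norm_conj D k (D.c false)).trans ih
    have h2 := (NUP.norm_conj D k (D.c true)).trans ih
    rw [pow_succ 2 k, pow_mul, sq]
    exact mul_le_mul h1 h2 (norm_nonneg _) (by positivity)

end Pool.Agent.K1H86.TH
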