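import Pool.Agent.K1H86.TH.Stm

/-! Project TH (MP_94b6b1_an, Q2), piece SUB: an element of Thompson's group acting on the
sequences beginning with `b`. -/

set_option autoImplicit false

namespace Pool.Agent.K1H86.TH

/-- the sequence without its first letter -/
def subTl (x : C) : C := fun n => x (n + 1)

lemma subTl_cons (b : Bool) (x : C) : subTl (cons b x) = x := rfl

lemma sub_cons_zero (b : Bool) (x : C) : cons b x 0 = b := rfl

lemma sub_cons_succ (b : Bool) (x : C) (n : ℕ) : cons b x (n + 1) = x n := rfl

lemma sub_cons_tl {b : Bool} {x : C} (h : x 0 = b) : cons b (subTl x) = x := by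
  funext n
  cases n with
  | zero => exact h.symm
  | succ n => rfl

/-- `g` on the sequences beginning with `b` -/
def subF (b : Bool) (g : C → C) (x : C) : C := if x 0 = b then cons b (g (subTl x)) else x

lemma subF_pos {b : Bool} (g : C → C) {x : C} (h : x 0 = b) :
    subF b g x = cons b (g (subTl x)) := if_pos h

lemma subF_neg {b : Bool} (g : C → C) {x : C} (h : x 0 ≠ b) : subF b g x = x := if_neg h

lemma subF_comp {b : Bool} {g k : C → C} (h : ∀ x, k (g x) = x) (x : C) :
    subF b k (subF b g x) = x := by
  by_cases hx : x 0 = b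
  · rw [subF_pos g hx, subF_pos k (sub_cons_zero _ _), subTl_cons, h, sub_cons_tl hx]
  · rw [subF_neg g hx, subF_neg k hx]

/-- the permutation -/
def subP (b : Bool) (g : Equiv.Perm C) : Equiv.Perm C where
  toFun := subF b g
  invFun := subF b g.symm
  left_inv := subF_comp fun x => g.symm_apply_apply x
  right_inv := subF_comp fun x => g.apply_symm_apply x

lemma subP_apply (b : Bool) (g : Equiv.Perm C) (x : C) : subP b g x = subF b g x := rfl

lemma sub_Lx_cons (b : Bool) (u v : C) : Lx (cons b u) (cons b v) ↔ Lx u v := by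
  constructor
  · rintro ⟨n, h1, h2, h3⟩
    cases n with
    | zero =>
      rw [sub_cons_zero] at h2 h3
      rw [h2] at h3
      exact absurd h3 (by decide)
    | succ n => exact ⟨n, fun m hm => h1 (m + 1) (by omega), h2, h3⟩
  · rintro ⟨n, h1, h2, h3⟩
    refine ⟨n + 1, fun m hm => ?_, h2, h3⟩
    cases m with
    | zero => rfl
    | succ m => exact h1 m (by omega)

lemma sub_Lx_ne {x y : C} (h : x 0 ≠ y 0) : Lx x y ↔ x 0 = false ∧ y 0 = true := by
  constructor
  · rintro ⟨n, h1, h2, h3⟩
    cases n with
    | zero => exact ⟨h2, h3⟩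
    | succ n => exact absurd (h1 0 (by omega)) h
  · rintro ⟨h1, h2⟩
    exact ⟨0, fun m hm => absurd hm (by omega), h1, h2⟩

lemma subF_zero (b : Bool) (g : C → C) (x : C) : subF b g x 0 = x 0 := by
  by_cases hx : x 0 = b
  · rw [subF_pos g hx, sub_cons_zero, hx]
  · rw [subF_neg g hx]

theorem sub : S_SUB := by
  intro b g hg hL
  refine ⟨subP b g, ?_, ?_, ?_, ?_⟩
  · -- local prefix replacement
    intro x
    by_cases hx : x 0 = b
    · obtain ⟨n, m, h⟩ := hg (subTl x)
      refine ⟨n + 1, m + 1, fun y hy => ?_⟩
      have hy0 : y 0 = b := (hy 0 (by omega)).trans hx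
      obtain ⟨h1, h2⟩ := h (subTl y) fun i hi => hy (i + 1) (by omega)
      rw [subP_apply, subP_apply, subF_pos g hx, subF_pos g hy0]
      refine ⟨fun j hj => ?_, fun j => ?_⟩
      · cases j with
        | zero => rfl
        | succ j => exact h1 j (by omega)
      · have h3 := h2 j
        have e1 : m + 1 + j = (m + j) + 1 := by omega
        have e2 : n + 1 + j = (n + j) + 1 := by omega
        rw [e1, e2, sub_cons_succ]
        exact h3
    · refine ⟨1, 1, fun y hy => ?_⟩
      have hy0 : y 0 ≠ b := by rw [hy 0 (by omega)]; exact hx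
      rw [subP_apply, subP_apply, subF_neg g hx, subF_neg g hy0]
      exact ⟨fun j hj => hy j hj, fun j => rfl⟩
  · -- the order
    intro x y
    rw [subP_apply, subP_apply]
    by_cases hxy : x 0 = y 0
    · by_cases hx : x 0 = b
      · have hy : y 0 = b := hxy ▸ hx
        rw [subF_pos g hx, subF_pos g hy, sub_Lx_cons, hL]
        conv_rhs => rw [← sub_cons_tl hx, ← sub_cons_tl hy]
        rw [sub_Lx_cons]
      · have hy : y 0 ≠ b := hxy ▸ hx
        rw [subF_neg g hx, subF_neg g hy]
    · have h1 : subF b g x 0 ≠ subF b g y 0 := by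
        rw [subF_zero, subF_zero]
        exact hxy
      rw [sub_Lx_ne h1, sub_Lx_ne hxy, subF_zero, subF_zero]
  · intro x
    rw [subP_apply, subF_pos g (sub_cons_zero _ _), subTl_cons]
  · intro x
    rw [subP_apply, subF_neg]
    rw [sub_cons_zero]
    cases b <;> decide

end Pool.Agent.K1H86.TH
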