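import Pool.Agent.K1H86.TH.Stm

/-!
Project TH, piece SEQ: real analysis (helper12).
-/

set_option autoImplicit false

namespace Pool.Agent.K1H86.TH

theorem seq : S_SEQ := by
  intro a c hc ha hstep
  have key : ∀ k : ℕ, a k ≤ 2 ^ k * (Real.exp (12 * (1 - (3 / 4 : ℝ) ^ k)) *
      (a 0 + 3 * c / 2 * (1 - (2 / 3 : ℝ) ^ k))) := by
    intro k
    induction k with
    | zero => simp
    | succ k ih =>
      have he0 : 0 < (3 / 4 : ℝ) ^ k := by positivity
      have he1 : (3 / 4 : ℝ) ^ k ≤ 1 := pow_le_one₀ (by norm_num) (by norm_num)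
      have h1 := hstep k _ he0 he1
      set ε : ℝ := (3 / 4 : ℝ) ^ k with hε
      have hδ0 : 0 < (2 / 3 : ℝ) ^ k := by positivity
      have hδ1 : (2 / 3 : ℝ) ^ k ≤ 1 := pow_le_one₀ (by norm_num) (by norm_num)
      set P : ℝ := Real.exp (12 * (1 - ε)) with hP
      have hP1 : 1 ≤ P := Real.one_le_exp (by nlinarith)
      have hPs : Real.exp (12 * (1 - (3 / 4 : ℝ) ^ (k + 1))) = P * Real.exp (3 * ε) := by
        rw [hP, ← Real.exp_add, pow_succ]
        congr 1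
        ring
      have hex : 1 + 3 * ε ≤ Real.exp (3 * ε) := by
        have := Real.add_one_le_exp (3 * ε)
        linarith
      set S : ℝ := a 0 + 3 * c / 2 * (1 - (2 / 3 : ℝ) ^ k) with hS
      have hS0 : 0 ≤ S := by
        have := ha 0
        have : 0 ≤ 3 * c / 2 * (1 - (2 / 3 : ℝ) ^ k) := mul_nonneg (by positivity) (by linarith)
        linarith
      have hSs : a 0 + 3 * c / 2 * (1 - (2 / 3 : ℝ) ^ (k + 1)) = S + c / 2 * (2 / 3 : ℝ) ^ k := by
        rw [hS, pow_succ]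
        ring
      have hce : c / ε = 2 ^ (k + 1) * (c / 2 * (2 / 3 : ℝ) ^ k) := by
        have h2 : (2 : ℝ) ^ k * (2 / 3 : ℝ) ^ k * ε = 1 := by
          rw [hε, ← mul_pow, ← mul_pow]
          norm_num
        rw [div_eq_iff he0.ne', pow_succ]
        calc c = c * 1 := by ring
          _ = c * ((2 : ℝ) ^ k * (2 / 3 : ℝ) ^ k * ε) := by rw [h2]
          _ = _ := by ring
      rw [hPs, hSs]
      have h3 : (1 + ε) ^ 2 ≤ Real.exp (3 * ε) := by
        refine le_trans ?_ hex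
        nlinarith
      have hE1 : 1 ≤ Real.exp (3 * ε) := Real.one_le_exp (by positivity)
      have h4 : 2 * (1 + ε) ^ 2 * a k ≤ 2 * Real.exp (3 * ε) * (2 ^ k * (P * S)) := by
        have : 0 ≤ (1 + ε) ^ 2 := by positivity
        apply mul_le_mul _ ih (ha k) (by positivity)
        linarith
      have hD : 0 ≤ c / 2 * (2 / 3 : ℝ) ^ k := by positivity
      have hPE : 1 ≤ P * Real.exp (3 * ε) := by nlinarith
      have h5 : 2 ^ (k + 1) * (c / 2 * (2 / 3 : ℝ) ^ k) ≤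
          2 ^ (k + 1) * (P * Real.exp (3 * ε) * (c / 2 * (2 / 3 : ℝ) ^ k)) := by
        apply mul_le_mul_of_nonneg_left _ (by positivity)
        nlinarith
      calc a (k + 1) ≤ 2 * (1 + ε) ^ 2 * a k + c / ε := h1
        _ ≤ 2 * Real.exp (3 * ε) * (2 ^ k * (P * S)) +
            2 ^ (k + 1) * (P * Real.exp (3 * ε) * (c / 2 * (2 / 3 : ℝ) ^ k)) := by
          rw [hce]
          linarith
        _ = _ := by ring
  refine ⟨Real.exp 12 * (a 0 + 3 * c / 2) + 1, ?_, fun k => ?_⟩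
  · have := ha 0
    positivity
  · refine (key k).trans ?_
    have hε0 : 0 < (3 / 4 : ℝ) ^ k := by positivity
    have hδ0 : 0 < (2 / 3 : ℝ) ^ k := by positivity
    have hδ1 : (2 / 3 : ℝ) ^ k ≤ 1 := pow_le_one₀ (by norm_num) (by norm_num)
    have h1 : Real.exp (12 * (1 - (3 / 4 : ℝ) ^ k)) ≤ Real.exp 12 :=
      Real.exp_le_exp.2 (by nlinarith)
    have h2 : a 0 + 3 * c / 2 * (1 - (2 / 3 : ℝ) ^ k) ≤ a 0 + 3 * c / 2 := by
      have : 0 ≤ 3 * c / 2 * (2 / 3 : ℝ) ^ k := by positivity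
      nlinarith
    have h3 : 0 ≤ a 0 + 3 * c / 2 * (1 - (2 / 3 : ℝ) ^ k) := by
      have := ha 0
      have : 0 ≤ 3 * c / 2 * (1 - (2 / 3 : ℝ) ^ k) := mul_nonneg (by positivity) (by linarith)
      linarith
    have h4 : Real.exp (12 * (1 - (3 / 4 : ℝ) ^ k)) * (a 0 + 3 * c / 2 * (1 - (2 / 3 : ℝ) ^ k)) ≤
        Real.exp 12 * (a 0 + 3 * c / 2) :=
      mul_le_mul h1 h2 h3 (Real.exp_pos _).le
    have h5 : (0 : ℝ) < 2 ^ k := by positivity
    nlinarith

end Pool.Agent.K1H86.TH
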