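import Pool.Agent.R499.HT.Stm

/-!
Project TH (MP_94b6b1_an, Q2): Thompson's groups `F`, `T`, `V` do not have the heat property.
Definitions and statements of the pieces.
-/

set_option autoImplicit false

namespace Pool.Agent.K1H86.TH

open Pool.Agent.R499.HT

/-! ### Thompson's groups -/

/-- the Cantor space of infinite binary sequences -/
abbrev C := ℕ → Bool

/-- `σ` is locally a replacement of prefixes: near every point `x`, with prefix of length `n`,
the first `n` letters are replaced by the first `m` letters of `σ x` and the rest is kept -/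
def PR (σ : Equiv.Perm C) : Prop := ∀ x : C, ∃ n m : ℕ, ∀ y : C, (∀ i < n, y i = x i) →
  (∀ j < m, σ y j = σ x j) ∧ ∀ j, σ y (m + j) = y (n + j)

/-- the lexicographic order of infinite binary sequences -/
def Lx (x y : C) : Prop := ∃ n, (∀ m < n, x m = y m) ∧ x n = false ∧ y n = true

/-- the cyclic order of infinite binary sequences -/
def Cyc (x y z : C) : Prop := (Lx x y ∧ Lx y z) ∨ (Lx y z ∧ Lx z x) ∨ (Lx z x ∧ Lx x y)

/-- `x ↦ b x` -/
def cons (b : Bool) (x : C) : C := fun n => match n with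
  | 0 => b
  | n + 1 => x n

/-- piece GRP1 -/
def S_PRmul : Prop := ∀ σ τ : Equiv.Perm C, PR σ → PR τ → PR (σ * τ)
/-- piece GRP2 -/
def S_PRinv : Prop := ∀ σ : Equiv.Perm C, PR σ → PR σ⁻¹

/-- piece ELT: the element `h : 0x ↦ 00x, 10x ↦ 01x, 11x ↦ 1x` -/
def S_H : Prop := ∃ h : Equiv.Perm C, PR h ∧ (∀ x y, Lx (h x) (h y) ↔ Lx x y) ∧
  (∀ x, h (cons false x) = cons false (cons false x)) ∧
  (∀ x, h (cons true (cons false x)) = cons false (cons true x)) ∧
  (∀ x, h (cons true (cons true x)) = cons true x)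

/-- piece SUB: `g` acting on the sequences beginning with `b`, the others being fixed -/
def S_SUB : Prop := ∀ (b : Bool) (g : Equiv.Perm C), PR g → (∀ x y, Lx (g x) (g y) ↔ Lx x y) →
  ∃ g' : Equiv.Perm C, PR g' ∧ (∀ x y, Lx (g' x) (g' y) ↔ Lx x y) ∧
    (∀ x, g' (cons b x) = cons b (g x)) ∧ ∀ x, g' (cons (!b) x) = cons (!b) x

/-! ### self-similar systems -/

/-- a self-similar system of commuting elements in the group `G` -/
structure Sys (G : Type) [Group G] where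
  S : Subgroup G
  f : G
  c : Bool → G
  hf : f ∈ S
  hc : ∀ ε : Bool, ∀ s ∈ S, c ε * s * (c ε)⁻¹ ∈ S
  comm : ∀ s ∈ S, ∀ s' ∈ S, Commute (c false * s * (c false)⁻¹) (c true * s' * (c true)⁻¹)
  indep : ∀ s ∈ S, ∀ s' ∈ S, c false * s * (c false)⁻¹ = c true * s' * (c true)⁻¹ → s = 1
  f2 : f * f ≠ 1

/-- the index sets -/
def T : ℕ → Type
  | 0 => Fin 3
  | k + 1 => T k × T k

instance instFT : ∀ k, Fintype (T k)
  | 0 => inferInstanceAs (Fintype (Fin 3))
  | k + 1 => @instFintypeProd _ _ (instFT k) (instFT k)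

instance instDT : ∀ k, DecidableEq (T k)
  | 0 => inferInstanceAs (DecidableEq (Fin 3))
  | k + 1 => @instDecidableEqProd _ _ (instDT k) (instDT k)

/-- the exponents `-1, 0, 1` -/
def ex (j : Fin 3) : ℤ := (j : ℤ) - 1

/-- the products of the commuting conjugates of `f` -/
def X {G : Type} [Group G] (D : Sys G) : (k : ℕ) → T k → G
  | 0, j => D.f ^ ex j
  | k + 1, p => (D.c false * X D k p.1 * (D.c false)⁻¹) * (D.c true * X D k p.2 * (D.c true)⁻¹)

/-- the phases -/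
noncomputable def ph : (k : ℕ) → T k → ℂ
  | 0, j => if ex j = 0 then Complex.I else 1
  | k + 1, p => ph k p.1 * ph k p.2

/-- piece UPPER -/
def S_UPPER : Prop := ∀ (G : Type) [Group G] (D : Sys G) (d : G → ℝ), ND d →
  ∃ B : ℝ, 0 < B ∧ ∀ k : ℕ, (∑ s : T k, d (X D k s)) / 3 ^ (2 ^ k) ≤ B * 2 ^ k

/-- piece NDA: two inequalities for negative definite functions -/
def S_NDA : Prop := ∀ (G : Type) [Group G] (d : G → ℝ), ND d →
  (∀ p q : G, Commute p q → d (p * q) + d (p⁻¹ * q) ≤ 2 * d p + 2 * d q) ∧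
  (∀ (g h : G) (ε : ℝ), 0 < ε → d (g * h) ≤ (1 + ε) * d g + (1 + 1 / ε) * d h)

/-- piece SEQ: real analysis -/
def S_SEQ : Prop := ∀ (a : ℕ → ℝ) (c : ℝ), 0 ≤ c → (∀ k, 0 ≤ a k) →
  (∀ (k : ℕ) (ε : ℝ), 0 < ε → ε ≤ 1 → a (k + 1) ≤ 2 * (1 + ε) ^ 2 * a k + c / ε) →
  ∃ B : ℝ, 0 < B ∧ ∀ k, a k ≤ B * 2 ^ k

/-- piece NUP -/
def S_NUP : Prop := ∀ (G : Type) [Group G] (D : Sys G) (k : ℕ),
  ‖∑ s : T k, ph k s • (lam (X D k s) : L2 G →L[ℂ] L2 G)‖ ≤ Real.sqrt 5 ^ (2 ^ k)

/-- piece COM: the elements commute; piece INJ: they are distinct -/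
def S_COM : Prop := ∀ (G : Type) [Group G] (D : Sys G) (k : ℕ) (s t : T k),
  Commute (X D k s) (X D k t)
def S_INJ : Prop := ∀ (G : Type) [Group G] (D : Sys G) (k : ℕ), Function.Injective (X D k)

/-- piece NLO: lower bound of the norm for commuting elements and nonnegative coefficients -/
def S_NLO : Prop := ∀ (G : Type) [Group G] (K : Finset G), (∀ a ∈ K, ∀ b ∈ K, Commute a b) →
  ∀ c : G → ℝ, (∀ g, 0 ≤ c g) →
    ∑ g ∈ K, c g ≤ ‖∑ g ∈ K, (c g : ℂ) • (lam g : L2 G →L[ℂ] L2 G)‖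

/-- piece GEN (assembly) -/
def S_GEN : Prop := ∀ (G : Type) [Group G], Sys G → ¬ Heat G

end Pool.Agent.K1H86.TH
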