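import Pool.Agent.K1H86.TH.Stm

set_option autoImplicit false

namespace Pool.Agent.K1H86.TH

/-- `x ↦ 10x` -/
def io (x : C) : C := cons true (cons false x)

lemma cons_inj (b : Bool) (x y : C) (h : cons b x = cons b y) : x = y := by
  funext n
  exact congrFun h (n + 1)

lemma cons_head (b b' : Bool) (x y : C) (h : cons b x = cons b' y) : b = b' := congrFun h 0

lemma io_inj (x y : C) (h : io x = io y) : x = y := cons_inj _ _ _ (cons_inj _ _ _ h)

lemma cons_surj (x : C) : ∃ b y, x = cons b y := by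
  refine ⟨x 0, fun n => x (n + 1), ?_⟩
  funext n
  cases n <;> rfl

section

variable (c : Bool → Equiv.Perm C) (hc : ∀ ε x, c ε (io x) = io (cons ε x))

include hc in
lemma conj_fix (ε : Bool) (s : Equiv.Perm C) (hs : ∀ x, (∀ y, x ≠ io y) → s x = x) (x : C)
    (hx : ∀ y, x ≠ io (cons ε y)) : (c ε * s * (c ε)⁻¹) x = x := by
  simp only [Equiv.Perm.mul_apply]
  have h1 : ∀ y, (c ε)⁻¹ x ≠ io y := by
    intro y hy
    apply hx y
    rw [← hc, ← hy]
    simp
  rw [hs _ h1]
  simp

include hc in
lemma conj_map (ε : Bool) (s : Equiv.Perm C) (hs : ∀ x, (∀ y, x ≠ io y) → s x = x) (y : C) :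
    ∃ y', s (io y) = io y' ∧ (c ε * s * (c ε)⁻¹) (io (cons ε y)) = io (cons ε y') := by
  have h0 : (c ε)⁻¹ (io (cons ε y)) = io y := by
    rw [← hc]
    simp
  have h1 : ∃ y', s (io y) = io y' := by
    by_contra hcon
    push Not at hcon
    have h2 := hs (s (io y)) hcon
    have h3 : s (io y) = io y := s.injective h2
    exact hcon y h3
  obtain ⟨y', hy'⟩ := h1
  refine ⟨y', hy', ?_⟩
  simp only [Equiv.Perm.mul_apply]
  rw [h0, hy', hc]

end

theorem sysOf (Γ : Subgroup (Equiv.Perm C)) (c : Bool → Equiv.Perm C) (f : Equiv.Perm C)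
    (mc : ∀ ε, c ε ∈ Γ) (mf : f ∈ Γ) (hc : ∀ ε x, c ε (io x) = io (cons ε x))
    (hf : ∀ x, (∀ y, x ≠ io y) → f x = x) (hf2 : ∃ x, f (f x) ≠ x) : Nonempty (Sys Γ) := by
  refine ⟨⟨{ carrier := {σ : Γ | ∀ x, (∀ y, x ≠ io y) → (σ : Equiv.Perm C) x = x}
             mul_mem' := ?_
             one_mem' := ?_
             inv_mem' := ?_ }, ⟨f, mf⟩, fun ε => ⟨c ε, mc ε⟩, hf, ?_, ?_, ?_, ?_⟩⟩
  · intro a b ha hb x hx
    show (a : Equiv.Perm C) ((b : Equiv.Perm C) x) = x
    rw [hb x hx, ha x hx]
  · intro x _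
    rfl
  · intro a ha x hx
    show (a : Equiv.Perm C)⁻¹ x = x
    rw [Equiv.Perm.inv_eq_iff_eq]
    exact (ha x hx).symm
  · intro ε s hs x hx
    show (c ε * (s : Equiv.Perm C) * (c ε)⁻¹) x = x
    exact conj_fix c hc ε s hs x (fun y => hx _)
  · intro s hs s' hs'
    apply Subtype.ext
    show (c false * (s : Equiv.Perm C) * (c false)⁻¹) * (c true * (s' : Equiv.Perm C) *
      (c true)⁻¹) = (c true * (s' : Equiv.Perm C) * (c true)⁻¹) *
      (c false * (s : Equiv.Perm C) * (c false)⁻¹)
    ext1 x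
    change (c false * (s : Equiv.Perm C) * (c false)⁻¹) ((c true * (s' : Equiv.Perm C) *
      (c true)⁻¹) x) = (c true * (s' : Equiv.Perm C) * (c true)⁻¹)
      ((c false * (s : Equiv.Perm C) * (c false)⁻¹) x)
    have hft : ∀ y y' : C, io (cons false y) ≠ io (cons true y') := by
      intro y y' h
      have := cons_head _ _ _ _ (io_inj _ _ h)
      exact absurd this (by decide)
    by_cases h0 : ∃ y, x = io (cons false y)
    · obtain ⟨y, rfl⟩ := h0
      obtain ⟨y', -, hy'⟩ := conj_map c hc false s hs y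
      rw [conj_fix c hc true s' hs' _ (fun z => hft y z), hy',
        conj_fix c hc true s' hs' _ (fun z => hft y' z)]
    · push Not at h0
      by_cases h1 : ∃ y, x = io (cons true y)
      · obtain ⟨y, rfl⟩ := h1
        obtain ⟨y', -, hy'⟩ := conj_map c hc true s' hs' y
        rw [conj_fix c hc false s hs _ (fun z => (hft z y).symm), hy',
          conj_fix c hc false s hs _ (fun z => (hft z y').symm)]
      · push Not at h1
        rw [conj_fix c hc true s' hs' _ h1, conj_fix c hc false s hs _ h0,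
          conj_fix c hc true s' hs' _ h1]
  · intro s hs s' hs' heq
    have heq' : c false * (s : Equiv.Perm C) * (c false)⁻¹ =
        c true * (s' : Equiv.Perm C) * (c true)⁻¹ := congrArg Subtype.val heq
    apply Subtype.ext
    show (s : Equiv.Perm C) = 1
    ext1 x
    show (s : Equiv.Perm C) x = x
    by_cases hx : ∃ y, x = io y
    · obtain ⟨y, rfl⟩ := hx
      obtain ⟨y', hy', hy2⟩ := conj_map c hc false s hs y
      have hft : ∀ z : C, io (cons false y) ≠ io (cons true z) := by
        intro z h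
        have := cons_head _ _ _ _ (io_inj _ _ h)
        exact absurd this (by decide)
      rw [heq', conj_fix c hc true s' hs' _ hft] at hy2
      have h3 := cons_inj _ _ _ (io_inj _ _ hy2)
      rw [hy', h3]
    · push Not at hx
      exact hs x hx
  · intro h
    obtain ⟨x, hx⟩ := hf2
    apply hx
    have h' : f * f = 1 := congrArg Subtype.val h
    rw [← Equiv.Perm.mul_apply, h']
    rfl

end Pool.Agent.K1H86.TH
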