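import Pool.Agent.K1H86.TH.Stm

/-!
Piece UPPER of the project TH.
-/

set_option autoImplicit false

namespace Pool.Agent.K1H86.TH

open Pool.Agent.R499.HT

theorem up_mem {G : Type} [Group G] (D : Sys G) : ∀ (k : ℕ) (s : T k), X D k s ∈ D.S
  | 0, _ => D.S.zpow_mem D.hf _
  | k + 1, p => D.S.mul_mem (D.hc false _ (up_mem D k p.1)) (D.hc true _ (up_mem D k p.2))

theorem up_card : ∀ k : ℕ, Fintype.card (T k) = 3 ^ (2 ^ k)
  | 0 => by
    change Fintype.card (Fin 3) = _
    simp
  | k + 1 => by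
    change @Fintype.card (T k × T k) (@instFintypeProd _ _ (instFT k) (instFT k)) = _
    rw [@Fintype.card_prod _ _ (instFT k) (instFT k), up_card k, ← pow_add]
    congr 1
    ring

theorem up_sum (k : ℕ) (f : T (k + 1) → ℝ) :
    ∑ s : T (k + 1), f s = ∑ s : T k, ∑ t : T k, f (s, t) :=
  Fintype.sum_prod_type (fun p : T k × T k => f p)

/-- the bijection of the index set inverting the elements -/
def up_inv : (k : ℕ) → T k ≃ T k
  | 0 => Fin.revPerm
  | k + 1 => Equiv.prodCongr (up_inv k) (up_inv k)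

theorem up_ex (j : Fin 3) : ex (Fin.revPerm j) = - ex j := by
  fin_cases j <;> rfl

theorem up_X {G : Type} [Group G] (D : Sys G) : ∀ (k : ℕ) (s : T k),
    X D k (up_inv k s) = (X D k s)⁻¹
  | 0, j => by
    change D.f ^ ex (Fin.revPerm j) = (D.f ^ ex j)⁻¹
    rw [up_ex, zpow_neg]
  | k + 1, p => by
    change (D.c false * X D k (up_inv k p.1) * (D.c false)⁻¹) *
      (D.c true * X D k (up_inv k p.2) * (D.c true)⁻¹) =
      ((D.c false * X D k p.1 * (D.c false)⁻¹) * (D.c true * X D k p.2 * (D.c true)⁻¹))⁻¹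
    rw [up_X D k p.1, up_X D k p.2, (D.comm _ (up_mem D k p.1) _ (up_mem D k p.2)).eq]
    group

/-- conjugation -/
theorem up_conj (h1 : S_NDA) {G : Type} [Group G] {d : G → ℝ} (hd : ND d) (c x : G) (e : ℝ)
    (he : 0 < e) (he1 : e ≤ 1) :
    d (c * x * c⁻¹) ≤ (1 + e) ^ 2 * d x + 6 * d c / e := by
  have k1 := (h1 G d hd).2 (c * x) c⁻¹ e he
  have k2 := (h1 G d hd).2 c x (1 / e) (by positivity)
  rw [hd.symm, ] at k1
  rw [one_div_one_div] at k2
  have hc := hd.nonneg c
  have hx := hd.nonneg x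
  have k3 : (1 + e) * d (c * x) ≤ (1 + e) * ((1 + 1 / e) * d c + (1 + e) * d x) := by
    gcongr
  have k4 : ((2 + e) * (1 + 1 / e)) ≤ 6 / e := by
    have : (2 + e) * (1 + 1 / e) = ((2 + e) * (e + 1)) / e := by field_simp
    rw [this]
    gcongr
    nlinarith
  have k5 : ((2 + e) * (1 + 1 / e)) * d c ≤ 6 / e * d c := by gcongr
  have k6 : 6 * d c / e = 6 / e * d c := by ring
  rw [k6]
  nlinarith

theorem upper (h1 : S_NDA) (h2 : S_SEQ) (_h3 : S_COM) : S_UPPER := by
  intro G _ D d hd
  apply h2 (fun k => (∑ s : T k, d (X D k s)) / 3 ^ (2 ^ k))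
    (6 * (d (D.c false) + d (D.c true)))
  · have := hd.nonneg (D.c false)
    have := hd.nonneg (D.c true)
    positivity
  · intro k
    have : 0 ≤ ∑ s : T k, d (X D k s) := Finset.sum_nonneg fun s _ => hd.nonneg _
    positivity
  · intro k e he he1
    set N : ℝ := (3 : ℝ) ^ (2 ^ k) with hN
    have hN0 : 0 < N := by positivity
    have hN2 : (3 : ℝ) ^ (2 ^ (k + 1)) = N * N := by
      rw [hN, ← pow_add]
      congr 1
      ring
    have hcard : (Fintype.card (T k) : ℝ) = N := by
      rw [up_card, hN]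
      push_cast
      rfl
    set A : ℝ := ∑ s : T k, d (X D k s) with hA
    set P : T k → G := fun s => D.c false * X D k s * (D.c false)⁻¹ with hP
    set Q : T k → G := fun s => D.c true * X D k s * (D.c true)⁻¹ with hQ
    have hcomm : ∀ s t, Commute (P s) (Q t) := fun s t =>
      D.comm _ (up_mem D k s) _ (up_mem D k t)
    have e1 : ∑ s : T (k + 1), d (X D (k + 1) s) = ∑ s : T k, ∑ t : T k, d (P s * Q t) :=
      up_sum k _
    have e2 : ∑ s : T k, ∑ t : T k, d (P s * Q t) = ∑ s : T k, ∑ t : T k, d ((P s)⁻¹ * Q t) := by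
      rw [← Equiv.sum_comp (up_inv k)]
      refine Finset.sum_congr rfl fun s _ => Finset.sum_congr rfl fun t _ => ?_
      have : P (up_inv k s) = (P s)⁻¹ := by
        simp only [hP]
        rw [up_X]
        group
      rw [this]
    have e3 : 2 * ∑ s : T k, ∑ t : T k, d (P s * Q t) ≤
        ∑ s : T k, ∑ t : T k, (2 * d (P s) + 2 * d (Q t)) := by
      rw [two_mul]
      nth_rewrite 2 [e2]
      rw [← Finset.sum_add_distrib]
      refine Finset.sum_le_sum fun s _ => ?_
      rw [← Finset.sum_add_distrib]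
      exact Finset.sum_le_sum fun t _ => (h1 G d hd).1 _ _ (hcomm s t)
    have e4 : ∑ s : T k, ∑ t : T k, (2 * d (P s) + 2 * d (Q t)) =
        2 * (N * (∑ s : T k, d (P s)) + N * (∑ t : T k, d (Q t))) := by
      simp only [Finset.sum_add_distrib, Finset.sum_const, Finset.card_univ, nsmul_eq_mul,
        hcard, ← Finset.mul_sum]
      ring
    have e5 : ∑ s : T k, d (P s) ≤ (1 + e) ^ 2 * A + N * (6 * d (D.c false) / e) := by
      calc ∑ s : T k, d (P s) ≤ ∑ s : T k, ((1 + e) ^ 2 * d (X D k s) + 6 * d (D.c false) / e) :=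
            Finset.sum_le_sum fun s _ => up_conj h1 hd _ _ e he he1
        _ = _ := by
            rw [Finset.sum_add_distrib, ← Finset.mul_sum, Finset.sum_const, Finset.card_univ,
              nsmul_eq_mul, hcard]
    have e6 : ∑ s : T k, d (Q s) ≤ (1 + e) ^ 2 * A + N * (6 * d (D.c true) / e) := by
      calc ∑ s : T k, d (Q s) ≤ ∑ s : T k, ((1 + e) ^ 2 * d (X D k s) + 6 * d (D.c true) / e) :=
            Finset.sum_le_sum fun s _ => up_conj h1 hd _ _ e he he1
        _ = _ := by
            rw [Finset.sum_add_distrib, ← Finset.mul_sum, Finset.sum_const, Finset.card_univ,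
              nsmul_eq_mul, hcard]
    rw [hN2, e1, div_le_iff₀ (by positivity)]
    have e7 : (2 * (1 + e) ^ 2 * (A / N) + 6 * (d (D.c false) + d (D.c true)) / e) * (N * N) =
        N * ((1 + e) ^ 2 * A + N * (6 * d (D.c false) / e)) +
        N * ((1 + e) ^ 2 * A + N * (6 * d (D.c true) / e)) := by
      field_simp
      ring
    rw [e7]
    have e8 := mul_le_mul_of_nonneg_left e5 hN0.le
    have e9 := mul_le_mul_of_nonneg_left e6 hN0.le
    rw [e4] at e3
    linarith

end Pool.Agent.K1H86.TH
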